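import Pool.Agent.W307.FK.Main
import Pool.Agent.Helper112.Arith
import Pool.Agent.W261.RT.Iso

/-!
# The second moment of the 2-Selmer groups over all the pairs of a short square
-/

set_option autoImplicit false

namespace Pool.Agent.TH342.SQ

open Finset Pool.Agent.W262.RK Pool.Agent.W307.SE Pool.Agent.W307.FK Pool.Agent.W410.FK

/-- the square `(N1, N1 + X] × (N2, N2 + X]` -/
noncomputable def Bx (N1 N2 : ℤ) (X : ℕ) : Finset (ℤ × ℤ) := Ioc N1 (N1 + X) ×ˢ Ioc N2 (N2 + X)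

lemma mem_Bx {N1 N2 : ℤ} {X : ℕ} {t : ℤ × ℤ} :
    t ∈ Bx N1 N2 X ↔ (N1 < t.1 ∧ t.1 ≤ N1 + X) ∧ (N2 < t.2 ∧ t.2 ≤ N2 + X) := by
  unfold Bx
  rw [mem_product, mem_Ioc, mem_Ioc]

lemma sum_Bx (f : ℤ × ℤ → ℝ) (N1 N2 : ℤ) (X : ℕ) :
    ∑ t ∈ Bx N1 N2 X, f t = ∑ t ∈ Icc 1 X ×ˢ Icc 1 X, f (N1 + (t.1 : ℤ), N2 + (t.2 : ℤ)) := by
  symm
  apply sum_bij (fun (t : ℕ × ℕ) _ => ((N1 + (t.1 : ℤ), N2 + (t.2 : ℤ)) : ℤ × ℤ))
  · intro t ht
    rw [mem_product, mem_Icc, mem_Icc] at ht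
    rw [mem_Bx]
    constructor <;> simp only <;> omega
  · intro t _ t' _ htt
    simp only [Prod.mk.injEq] at htt
    ext <;> omega
  · intro t ht
    rw [mem_Bx] at ht
    refine ⟨((t.1 - N1).toNat, (t.2 - N2).toNat), ?_, ?_⟩
    · rw [mem_product, mem_Icc, mem_Icc]
      simp only
      omega
    · ext <;> simp only <;> omega
  · intro t _
    rfl

/-- `2 ^ ω(n) ≤ τ(n)` -/
lemma two_pow_le (n : ℕ) (hn : n ≠ 0) : 2 ^ n.primeFactors.card ≤ n.divisors.card := by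
  rw [Nat.card_divisors hn, ← prod_const]
  refine prod_le_prod' fun p hp => ?_
  have := (Nat.prime_of_mem_primeFactors hp).factorization_pos_of_dvd hn
    (Nat.dvd_of_mem_primeFactors hp)
  omega

/-- the trivial bound of the 2-Selmer group -/
lemma triv {D a b : ℤ} (hD : D ≠ 0) (ha : a ≠ 0) (hb : b ≠ 0) (hab : a ≠ b) :
    ((Sel (D * a) (D * b)).ncard : ℝ) ^ 2 ≤ 256 * 16 ^ D.natAbs.primeFactors.card *
      ((2 * a * b * (a - b)).natAbs.divisors.card : ℝ) ^ 4 := by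
  have hn : (2 * a * b * (a - b)).natAbs ≠ 0 := by
    rw [Int.natAbs_ne_zero]
    exact mul_ne_zero (mul_ne_zero (mul_ne_zero two_ne_zero ha) hb) (sub_ne_zero.2 hab)
  have h1 := (seld 1 (fun _ _ _ _ _ => True) (D * a) (D * b) (mul_ne_zero hD ha)
    (mul_ne_zero hD hb) (fun h => hab (mul_left_cancel₀ hD h)) odd_one squarefree_one
    (fun p hp hp1 => absurd (Nat.dvd_one.1 hp1) hp.one_lt.ne')
    (fun p hp hp1 => absurd (Nat.dvd_one.1 hp1) hp.out.one_lt.ne')).2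
  have h2 : NL 1 (fun _ _ _ _ _ => True) = 1 := by
    unfold NL
    simp
  rw [h2, mul_one] at h1
  have h3 : ((2 * (D * a) * (D * b) * (D * a - D * b)).natAbs.primeFactors.filter
      (fun q => ¬ q ∣ 1)).card ≤
      D.natAbs.primeFactors.card + (2 * a * b * (a - b)).natAbs.primeFactors.card := by
    refine (card_filter_le _ _).trans ?_
    have e : (2 * (D * a) * (D * b) * (D * a - D * b)).natAbs =
        D.natAbs ^ 3 * (2 * a * b * (a - b)).natAbs := by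
      rw [← Int.natAbs_pow, ← Int.natAbs_mul]
      congr 1
      ring
    rw [e, Nat.primeFactors_mul (pow_ne_zero 3 (Int.natAbs_ne_zero.2 hD)) hn,
      Nat.primeFactors_pow _ (by norm_num)]
    exact card_union_le _ _
  set w := D.natAbs.primeFactors.card with hw
  set v := (2 * a * b * (a - b)).natAbs.primeFactors.card with hv
  have h4 : (Sel (D * a) (D * b)).ncard ≤ 4 ^ (w + v + 2) :=
    h1.trans (Nat.pow_le_pow_right (by norm_num) (by omega))
  have h5 : ((Sel (D * a) (D * b)).ncard : ℝ) ≤ 4 ^ (w + v + 2) := by exact_mod_cast h4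
  have h6 : (2 : ℝ) ^ v ≤ ((2 * a * b * (a - b)).natAbs.divisors.card : ℝ) := by
    exact_mod_cast two_pow_le _ hn
  calc ((Sel (D * a) (D * b)).ncard : ℝ) ^ 2 ≤ (4 ^ (w + v + 2)) ^ 2 :=
        pow_le_pow_left₀ (by positivity) h5 2
    _ = 256 * 16 ^ w * (2 ^ v) ^ 4 := by
        have e1 : (4 : ℝ) ^ v = (2 ^ v) ^ 2 := by
          rw [← pow_mul, mul_comm v 2, pow_mul]
          norm_num
        have e2 : (16 : ℝ) ^ w = (4 ^ w) ^ 2 := by
          rw [← pow_mul, mul_comm w 2, pow_mul]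
          norm_num
        rw [pow_add, pow_add, e1, e2]
        ring
    _ ≤ _ := by
        have : ((2 : ℝ) ^ v) ^ 4 ≤ ((2 * a * b * (a - b)).natAbs.divisors.card : ℝ) ^ 4 :=
          pow_le_pow_left₀ (by positivity) h6 4
        exact mul_le_mul_of_nonneg_left this (by positivity)

/-- the multiples of `g` in an interval -/
lemma quot_mem {N t u : ℤ} {X g : ℕ} (hg : 0 < g) (h1 : N < t) (h2 : t ≤ N + X)
    (hu : (g : ℤ) * u = t) : N / g < u ∧ u ≤ N / g + ((X / g + 1 : ℕ) : ℤ) := by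
  have hg' : (0 : ℤ) < g := by exact_mod_cast hg
  constructor
  · rw [Int.ediv_lt_iff_lt_mul hg']
    rw [mul_comm] at hu
    rw [hu]
    exact h1
  · have e1 : (N : ℤ) = g * (N / g) + N % g := (Int.mul_ediv_add_emod N g).symm
    have e2 := Int.emod_lt_of_pos N hg'
    have e3 : (X : ℤ) = g * ((X / g : ℕ) : ℤ) + ((X % g : ℕ) : ℤ) := by
      exact_mod_cast (Nat.div_add_mod X g).symm
    have e4 : ((X % g : ℕ) : ℤ) < g := by exact_mod_cast Nat.mod_lt X hg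
    have e5 : (g : ℤ) * u < g * (N / g + ((X / g + 1 : ℕ) : ℤ) + 1) := by
      push_cast at *
      nlinarith
    have := lt_of_mul_lt_mul_left e5 hg'.le
    omega

open Classical in
/-- the square of the order of the 2-Selmer group of `y² = x (x - D a) (x - D b)` -/
noncomputable def GD (D : ℤ) (t : ℤ × ℤ) : ℝ :=
  if t.1 ≠ 0 ∧ t.2 ≠ 0 ∧ t.1 ≠ t.2 then ((Sel (D * t.1) (D * t.2)).ncard : ℝ) ^ 2 else 0

lemma GD_nonneg (D : ℤ) (t : ℤ × ℤ) : 0 ≤ GD D t := by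
  unfold GD
  split_ifs
  · positivity
  · exact le_rfl

/-- the pairs with greatest common divisor `g` -/
lemma fiber (D N1 N2 : ℤ) (X g : ℕ) (hg : 0 < g) :
    ∑ t ∈ (Bx N1 N2 X).filter (fun t => Int.gcd t.1 t.2 = g ∧ t.1 ≠ 0 ∧ t.2 ≠ 0 ∧ t.1 ≠ t.2),
      GD D t ≤ ∑ u ∈ Bx (N1 / g) (N2 / g) (X / g + 1), SS (D * g) u := by
  classical
  set S := (Bx N1 N2 X).filter (fun t => Int.gcd t.1 t.2 = g ∧ t.1 ≠ 0 ∧ t.2 ≠ 0 ∧ t.1 ≠ t.2)
    with hS
  have hg' : (g : ℤ) ≠ 0 := by exact_mod_cast hg.ne'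
  have hdiv : ∀ t ∈ S, (g : ℤ) * (t.1 / (g : ℤ)) = t.1 ∧ (g : ℤ) * (t.2 / (g : ℤ)) = t.2 := by
    intro t ht
    obtain ⟨_, h, _⟩ := mem_filter.1 ht
    rw [← h]
    exact ⟨Int.mul_ediv_cancel' (Int.gcd_dvd_left _ _), Int.mul_ediv_cancel' (Int.gcd_dvd_right _ _)⟩
  have hinj : Set.InjOn (fun t : ℤ × ℤ => ((t.1 / (g : ℤ), t.2 / (g : ℤ)) : ℤ × ℤ)) S := by
    intro t ht t' ht' h
    simp only [Prod.mk.injEq] at h
    obtain ⟨a1, a2⟩ := hdiv t ht
    obtain ⟨b1, b2⟩ := hdiv t' ht'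
    ext
    · rw [← a1, ← b1, h.1]
    · rw [← a2, ← b2, h.2]
  calc ∑ t ∈ S, GD D t = ∑ t ∈ S, SS (D * g) (t.1 / (g : ℤ), t.2 / (g : ℤ)) := by
        refine sum_congr rfl fun t ht => ?_
        obtain ⟨a1, a2⟩ := hdiv t ht
        obtain ⟨_, h, t1, t2, t3⟩ := mem_filter.1 ht
        unfold GD SS
        rw [if_pos ⟨t1, t2, t3⟩, if_pos]
        · simp only
          rw [mul_assoc, mul_assoc, a1, a2]
        · simp only
          refine ⟨?_, ?_, ?_, ?_⟩
          · have := Int.gcd_ediv_gcd_ediv_gcd (i := t.1) (j := t.2) (by rw [h]; exact hg)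
            rw [h] at this
            exact Int.isCoprime_iff_gcd_eq_one.2 this
          · intro h0
            apply t1
            rw [← a1, h0, mul_zero]
          · intro h0
            apply t2
            rw [← a2, h0, mul_zero]
          · intro h0
            apply t3
            rw [← a1, ← a2, h0]
    _ = ∑ u ∈ S.image (fun t : ℤ × ℤ => ((t.1 / (g : ℤ), t.2 / (g : ℤ)) : ℤ × ℤ)),
          SS (D * g) u := (sum_image (f := fun u => SS (D * g) u) hinj).symm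
    _ ≤ _ := by
        refine sum_le_sum_of_subset_of_nonneg ?_ fun u _ _ => SS_nonneg _ _
        intro u hu
        obtain ⟨t, ht, rfl⟩ := mem_image.1 hu
        obtain ⟨a1, a2⟩ := hdiv t ht
        obtain ⟨ht1, _⟩ := mem_filter.1 ht
        rw [mem_Bx] at ht1 ⊢
        exact ⟨quot_mem hg ht1.1.1 ht1.1.2 a1, quot_mem hg ht1.2.1 ht1.2.2 a2⟩

/-- the number of the multiples of `g` in an interval -/
lemma card_mult (N : ℤ) (X g : ℕ) (hg : 0 < g) :
    ((Ioc N (N + X)).filter (fun t => (g : ℤ) ∣ t)).card ≤ X / g + 1 := by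
  have hg' : (g : ℤ) ≠ 0 := by exact_mod_cast hg.ne'
  calc _ ≤ (Ioc (N / g) (N / g + ((X / g + 1 : ℕ) : ℤ))).card := by
        refine card_le_card_of_injOn (fun t => t / (g : ℤ)) ?_ ?_
        · intro t ht
          rw [mem_coe, mem_filter, mem_Ioc] at ht
          rw [mem_coe, mem_Ioc]
          exact quot_mem hg ht.1.1 ht.1.2 (Int.mul_ediv_cancel' ht.2)
        · intro t ht t' ht' h
          rw [mem_coe, mem_filter] at ht ht'
          simp only at h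
          rw [← Int.mul_ediv_cancel' ht.2, ← Int.mul_ediv_cancel' ht'.2, h]
    _ = X / g + 1 := by
        rw [Int.card_Ioc, add_sub_cancel_left, Int.toNat_natCast]

/-- the number of the pairs with a large common divisor -/
lemma card_big (N1 N2 : ℤ) (X : ℕ) (T : ℝ) (hT0 : 0 ≤ T) (hT : ∀ t : ℤ, t ∈ Ioc N1 (N1 + X) → t ≠ 0 →
      (t.natAbs.divisors.card : ℝ) ≤ T) :
    (((Bx N1 N2 X).filter (fun t => X < (Int.gcd t.1 t.2) ^ 2 ∧ t.1 ≠ 0)).card : ℝ) ≤
      X * (T * (Real.sqrt X + 1)) := by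
  classical
  have h1 : ((Bx N1 N2 X).filter (fun t => X < (Int.gcd t.1 t.2) ^ 2 ∧ t.1 ≠ 0)) ⊆
      ((Ioc N1 (N1 + X)).filter (fun t => t ≠ 0)).biUnion (fun a =>
        (a.natAbs.divisors.filter (fun g => X < g ^ 2)).biUnion (fun g =>
          ((Ioc N2 (N2 + X)).filter (fun t => (g : ℤ) ∣ t)).image (fun b => (a, b)))) := by
    intro t ht
    rw [mem_filter, mem_Bx] at ht
    obtain ⟨⟨h1, h2⟩, h3, h4⟩ := ht
    rw [mem_biUnion]
    refine ⟨t.1, mem_filter.2 ⟨mem_Ioc.2 h1, h4⟩, ?_⟩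
    rw [mem_biUnion]
    refine ⟨Int.gcd t.1 t.2, mem_filter.2 ⟨Nat.mem_divisors.2 ⟨?_, Int.natAbs_ne_zero.2 h4⟩, h3⟩,
      ?_⟩
    · exact Int.natCast_dvd.1 (Int.gcd_dvd_left _ _)
    · rw [mem_image]
      exact ⟨t.2, mem_filter.2 ⟨mem_Ioc.2 h2, Int.gcd_dvd_right _ _⟩, rfl⟩
  have h2 : ∀ g : ℕ, X < g ^ 2 → ((X / g + 1 : ℕ) : ℝ) ≤ Real.sqrt X + 1 := by
    intro g hg
    push_cast
    have hg0 : 0 < g := by
      rcases Nat.eq_zero_or_pos g with rfl | h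
      · simp at hg
      · exact h
    have h3 : (X / g) ^ 2 ≤ X := by
      have h4 : X / g * g ≤ X := Nat.div_mul_le_self X g
      have h5 : X / g ≤ g := by
        rw [pow_two] at hg
        exact (Nat.div_lt_iff_lt_mul hg0).2 hg |>.le
      calc (X / g) ^ 2 = X / g * (X / g) := pow_two _
        _ ≤ X / g * g := Nat.mul_le_mul_left _ h5
        _ ≤ X := h4
    have h6 : (((X / g : ℕ) : ℝ)) ≤ Real.sqrt X := by
      apply Real.le_sqrt_of_sq_le
      exact_mod_cast h3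
    linarith
  have hs : 0 ≤ Real.sqrt X + 1 := by positivity
  have hcard : ((((Ioc N1 (N1 + X)).filter (fun t => t ≠ 0)).card : ℕ) : ℝ) ≤ X := by
    have := card_filter_le (Ioc N1 (N1 + (X : ℤ))) (fun t => t ≠ 0)
    rw [Int.card_Ioc] at this
    have h : ((Ioc N1 (N1 + X)).filter (fun t => t ≠ 0)).card ≤ X := by omega
    exact_mod_cast h
  have hinner : ∀ a ∈ (Ioc N1 (N1 + X)).filter (fun t => t ≠ 0),
      ((((a.natAbs.divisors.filter (fun g => X < g ^ 2)).biUnion (fun g =>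
          ((Ioc N2 (N2 + X)).filter (fun t => (g : ℤ) ∣ t)).image (fun b => (a, b)))).card : ℕ) : ℝ)
        ≤ T * (Real.sqrt X + 1) := by
    intro a ha
    obtain ⟨ha1, ha2⟩ := mem_filter.1 ha
    have e1 : ((((a.natAbs.divisors.filter (fun g => X < g ^ 2)).biUnion (fun g =>
          ((Ioc N2 (N2 + X)).filter (fun t => (g : ℤ) ∣ t)).image (fun b => (a, b)))).card : ℕ) : ℝ)
        ≤ ∑ g ∈ a.natAbs.divisors.filter (fun g => X < g ^ 2),
          ((((Ioc N2 (N2 + X)).filter (fun t => (g : ℤ) ∣ t)).image (fun b => (a, b))).card : ℝ) := by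
      exact_mod_cast card_biUnion_le
    refine e1.trans ?_
    calc _ ≤ ∑ g ∈ a.natAbs.divisors.filter (fun g => X < g ^ 2), (Real.sqrt X + 1) := by
          refine sum_le_sum fun g hg => ?_
          obtain ⟨hg1, hg2⟩ := mem_filter.1 hg
          have hg0 : 0 < g := Nat.pos_of_mem_divisors hg1
          refine le_trans ?_ (h2 g hg2)
          exact_mod_cast card_image_le.trans (card_mult N2 X g hg0)
      _ = ((a.natAbs.divisors.filter (fun g => X < g ^ 2)).card : ℝ) * (Real.sqrt X + 1) := by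
          rw [sum_const, nsmul_eq_mul]
      _ ≤ T * (Real.sqrt X + 1) := by
          refine mul_le_mul_of_nonneg_right ?_ hs
          refine le_trans ?_ (hT a ha1 ha2)
          exact_mod_cast card_filter_le _ _
  have hle : (((Bx N1 N2 X).filter (fun t => X < (Int.gcd t.1 t.2) ^ 2 ∧ t.1 ≠ 0)).card : ℝ) ≤
      ∑ a ∈ (Ioc N1 (N1 + X)).filter (fun t => t ≠ 0),
        ((((a.natAbs.divisors.filter (fun g => X < g ^ 2)).biUnion (fun g =>
          ((Ioc N2 (N2 + X)).filter (fun t => (g : ℤ) ∣ t)).image (fun b => (a, b)))).card : ℕ) : ℝ) := by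
    exact_mod_cast (card_le_card h1).trans card_biUnion_le
  refine hle.trans ((sum_le_sum hinner).trans ?_)
  rw [sum_const, nsmul_eq_mul]
  exact mul_le_mul_of_nonneg_right hcard (by positivity)

lemma natAbs_ediv_le (N : ℤ) (g : ℕ) (hg : 0 < g) : (N / (g : ℤ)).natAbs ≤ N.natAbs := by
  have hg' : (0 : ℤ) < g := by exact_mod_cast hg
  have h1 : (1 : ℤ) ≤ g := hg'
  rcases le_total 0 N with h | h
  · have a1 : 0 ≤ N / (g : ℤ) := Int.ediv_nonneg h hg'.le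
    have a2 : N / (g : ℤ) ≤ N := Int.ediv_le_self _ h
    omega
  · have a1 : N / (g : ℤ) ≤ 0 := Int.ediv_nonpos_of_nonpos_of_neg h hg'
    have a2 : N ≤ N / (g : ℤ) := by
      rw [Int.le_ediv_iff_mul_le hg']
      nlinarith
    omega

theorem all_pairs (L : ℕ) : ∃ C : ℝ, 0 ≤ C ∧ ∀ (D N1 N2 : ℤ) (X : ℕ), D ≠ 0 → 1 ≤ X →
    N1.natAbs ≤ X ^ L → N2.natAbs ≤ X ^ L →
    ∑ t ∈ Bx N1 N2 X, GD D t ≤ C * 128 ^ D.natAbs.primeFactors.card * (X : ℝ) ^ 2 := by
  classical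
  obtain ⟨C1, hC1, h1⟩ := Pool.Agent.W307.FK.avgn_of Pool.Agent.W307.FK.expf (2 * (L + 1))
  obtain ⟨C2, hC2, h2⟩ := Pool.Agent.W334.FK.som
  set ε : ℝ := 1 / (30 * ((L : ℝ) + 1)) with hε
  have hε0 : 0 < ε := by positivity
  obtain ⟨K, hK, hτ⟩ := Pool.Agent.Helper112.divisor_bound ε hε0
  refine ⟨4 * C1 * C2 + 512 * 32 * K ^ 5, by positivity, fun D N1 N2 X hD hX hN1 hN2 => ?_⟩
  set w := D.natAbs.primeFactors.card with hw
  have hXr : (1 : ℝ) ≤ X := by exact_mod_cast hX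
  set S := (Bx N1 N2 X).filter (fun t : ℤ × ℤ => t.1 ≠ 0 ∧ t.2 ≠ 0 ∧ t.1 ≠ t.2) with hS
  have e0 : ∑ t ∈ Bx N1 N2 X, GD D t = ∑ t ∈ S, GD D t := by
    symm
    apply sum_subset (filter_subset _ _)
    intro t ht ht2
    unfold GD
    rw [if_neg]
    intro h
    exact ht2 (mem_filter.2 ⟨ht, h⟩)
  have e1 := (sum_filter_add_sum_filter_not S (fun t => (Int.gcd t.1 t.2) ^ 2 ≤ X) (GD D)).symm
  -- the pairs with a small common divisor
  have k1 : ∑ t ∈ S.filter (fun t => (Int.gcd t.1 t.2) ^ 2 ≤ X), GD D t ≤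
      4 * C1 * C2 * 128 ^ w * (X : ℝ) ^ 2 := by
    rw [← sum_fiberwise_of_maps_to (s := S.filter (fun t => (Int.gcd t.1 t.2) ^ 2 ≤ X))
      (t := (Icc 1 X).filter (fun g => g ^ 2 ≤ X)) (g := fun t => Int.gcd t.1 t.2) (by
        intro t ht
        obtain ⟨ht1, ht2⟩ := mem_filter.1 ht
        obtain ⟨_, ht3, _⟩ := mem_filter.1 ht1
        have hg0 : 0 < Int.gcd t.1 t.2 := Int.gcd_pos_of_ne_zero_left _ ht3
        refine mem_filter.2 ⟨mem_Icc.2 ⟨hg0, ?_⟩, ht2⟩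
        exact (Nat.le_self_pow two_ne_zero _).trans ht2)]
    have k2 : ∀ g ∈ (Icc 1 X).filter (fun g => g ^ 2 ≤ X),
        ∑ t ∈ (S.filter (fun t => (Int.gcd t.1 t.2) ^ 2 ≤ X)).filter
          (fun t => Int.gcd t.1 t.2 = g), GD D t ≤
        4 * C1 * 128 ^ w * (X : ℝ) ^ 2 * ((128 : ℝ) ^ g.primeFactors.card / (g : ℝ) ^ 2) := by
      intro g hg
      obtain ⟨hg1, hg2⟩ := mem_filter.1 hg
      rw [mem_Icc] at hg1
      have hg0 : 0 < g := hg1.1
      have hgr : (0 : ℝ) < g := by exact_mod_cast hg0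
      refine le_trans (sum_le_sum_of_subset_of_nonneg (t := (Bx N1 N2 X).filter (fun t =>
        Int.gcd t.1 t.2 = g ∧ t.1 ≠ 0 ∧ t.2 ≠ 0 ∧ t.1 ≠ t.2)) ?_ fun t _ _ => GD_nonneg D t) ?_
      · intro t ht
        obtain ⟨ht1, ht2⟩ := mem_filter.1 ht
        obtain ⟨ht3, _⟩ := mem_filter.1 ht1
        obtain ⟨ht4, ht5⟩ := mem_filter.1 ht3
        exact mem_filter.2 ⟨ht4, ht2, ht5⟩
      refine (fiber D N1 N2 X g hg0).trans ?_
      rw [sum_Bx]
      have hgg : g ≤ X / g := by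
        rw [Nat.le_div_iff_mul_le hg0, ← pow_two]
        exact hg2
      have hX' : X ≤ (X / g + 1) ^ 2 := by
        have a1 : X < g * (X / g + 1) := Nat.lt_mul_div_succ X hg0
        have a2 : g * (X / g + 1) ≤ (X / g + 1) * (X / g + 1) :=
          Nat.mul_le_mul_right _ (by omega)
        rw [pow_two]
        omega
      have hb : ∀ N : ℤ, N.natAbs ≤ X ^ L → (N / (g : ℤ)).natAbs ≤ (X / g + 1) ^ (2 * (L + 1)) := by
        intro N hN
        calc (N / (g : ℤ)).natAbs ≤ N.natAbs := natAbs_ediv_le N g hg0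
          _ ≤ X ^ L := hN
          _ ≤ ((X / g + 1) ^ 2) ^ L := Nat.pow_le_pow_left hX' L
          _ = (X / g + 1) ^ (2 * L) := by rw [← pow_mul]
          _ ≤ _ := Nat.pow_le_pow_right (by omega) (by omega)
      refine (h1 (D * g) (N1 / g) (N2 / g) (X / g + 1) (mul_ne_zero hD (by exact_mod_cast hg0.ne'))
        (by omega) (hb N1 hN1) (hb N2 hN2)).trans ?_
      have hom : (D * (g : ℤ)).natAbs.primeFactors.card ≤ w + g.primeFactors.card := by
        rw [Int.natAbs_mul, Int.natAbs_natCast, Nat.primeFactors_mul (Int.natAbs_ne_zero.2 hD)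
          hg0.ne']
        exact card_union_le _ _
      have hp : (128 : ℝ) ^ (D * (g : ℤ)).natAbs.primeFactors.card ≤
          128 ^ w * 128 ^ g.primeFactors.card := by
        rw [← pow_add]
        exact pow_le_pow_right₀ (by norm_num) hom
      have hq : (((X / g + 1 : ℕ) : ℝ)) ≤ 2 * (X / g) := by
        push_cast
        have a1 : ((X / g : ℕ) : ℝ) ≤ (X : ℝ) / g := Nat.cast_div_le
        have a2 : (1 : ℝ) ≤ (X : ℝ) / g := by
          rw [one_le_div hgr]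
          exact_mod_cast hg1.2
        linarith
      have hq2 : (((X / g + 1 : ℕ) : ℝ)) ^ 2 ≤ (2 * (X / g)) ^ 2 :=
        pow_le_pow_left₀ (by positivity) hq 2
      calc C1 * 128 ^ (D * (g : ℤ)).natAbs.primeFactors.card * (((X / g + 1 : ℕ) : ℝ)) ^ 2
          ≤ C1 * (128 ^ w * 128 ^ g.primeFactors.card) * (2 * (X / g)) ^ 2 := by
            gcongr
        _ = _ := by
            field_simp
            ring
    refine (sum_le_sum k2).trans ?_
    rw [← mul_sum]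
    have k3 : ∑ g ∈ (Icc 1 X).filter (fun g => g ^ 2 ≤ X),
        (128 : ℝ) ^ g.primeFactors.card / (g : ℝ) ^ 2 ≤ C2 :=
      (sum_le_sum_of_subset_of_nonneg (filter_subset _ _) fun g _ _ => by positivity).trans (h2 X)
    calc _ ≤ 4 * C1 * 128 ^ w * (X : ℝ) ^ 2 * C2 := mul_le_mul_of_nonneg_left k3 (by positivity)
      _ = _ := by ring
  -- the pairs with a large common divisor
  set P : ℝ := 32 * (X : ℝ) ^ (3 * (L + 1)) with hP
  have hP1 : 1 ≤ P := by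
    have := one_le_pow₀ hXr (n := 3 * (L + 1))
    linarith
  set T : ℝ := K * P ^ ε with hT
  have hT0 : 0 ≤ T := by positivity
  have hab : ∀ N a : ℤ, N.natAbs ≤ X ^ L → N < a ∧ a ≤ N + X → (a.natAbs : ℝ) ≤
      2 * (X : ℝ) ^ (L + 1) := by
    intro N a hN ha
    have a1 : a.natAbs ≤ X ^ L + X := by omega
    have a2 : X ^ L ≤ X ^ (L + 1) := Nat.pow_le_pow_right hX (by omega)
    have a3 : X ≤ X ^ (L + 1) := Nat.le_self_pow (by omega) X
    have a4 : a.natAbs ≤ 2 * X ^ (L + 1) := by omega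
    exact_mod_cast a4
  have hX1 : (1 : ℝ) ≤ (X : ℝ) ^ (L + 1) := one_le_pow₀ hXr
  have hPX : P = 32 * ((X : ℝ) ^ (L + 1)) ^ 3 := by
    rw [hP, ← pow_mul]
    ring_nf
  have hτ' : ∀ n : ℕ, 1 ≤ n → (n : ℝ) ≤ P → (n.divisors.card : ℝ) ≤ T := by
    intro n hn hnP
    refine (hτ n hn).trans ?_
    exact mul_le_mul_of_nonneg_left (Real.rpow_le_rpow (by positivity) hnP hε0.le) hK.le
  have hT5 : T ^ 5 ≤ 32 * K ^ 5 * Real.sqrt X := by
    have b1 : (P ^ ε) ^ 5 = P ^ (5 * ε) := by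
      rw [← Real.rpow_natCast, ← Real.rpow_mul (by positivity)]
      congr 1
      push_cast
      ring
    have b2 : P ^ (5 * ε) = (32 : ℝ) ^ (5 * ε) * ((X : ℝ) ^ (3 * (L + 1))) ^ (5 * ε) := by
      rw [hP, Real.mul_rpow (by norm_num) (by positivity)]
    have b3 : ((X : ℝ) ^ (3 * (L + 1))) ^ (5 * ε) = Real.sqrt X := by
      rw [← Real.rpow_natCast, ← Real.rpow_mul (by positivity), Real.sqrt_eq_rpow]
      congr 1
      rw [hε]
      push_cast
      field_simp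
      norm_num
    have b4 : (32 : ℝ) ^ (5 * ε) ≤ 32 := by
      calc (32 : ℝ) ^ (5 * ε) ≤ (32 : ℝ) ^ (1 : ℝ) := by
            apply Real.rpow_le_rpow_of_exponent_le (by norm_num)
            rw [hε]
            have : (1 : ℝ) ≤ (L : ℝ) + 1 := by
              have : (0 : ℝ) ≤ L := Nat.cast_nonneg _
              linarith
            rw [← mul_div_assoc, div_le_one (by positivity)]
            linarith
        _ = 32 := Real.rpow_one _
    calc T ^ 5 = K ^ 5 * (P ^ ε) ^ 5 := by rw [hT, mul_pow]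
      _ = K ^ 5 * ((32 : ℝ) ^ (5 * ε) * Real.sqrt X) := by rw [b1, b2, b3]
      _ ≤ K ^ 5 * (32 * Real.sqrt X) := by gcongr
      _ = _ := by ring
  have k4 : ∑ t ∈ S.filter (fun t => ¬ (Int.gcd t.1 t.2) ^ 2 ≤ X), GD D t ≤
      512 * 32 * K ^ 5 * 128 ^ w * (X : ℝ) ^ 2 := by
    have c1 : ∀ t ∈ S.filter (fun t => ¬ (Int.gcd t.1 t.2) ^ 2 ≤ X),
        GD D t ≤ 256 * 16 ^ w * T ^ 4 := by
      intro t ht
      obtain ⟨ht1, _⟩ := mem_filter.1 ht
      obtain ⟨ht2, h3, h4, h5⟩ := mem_filter.1 ht1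
      rw [mem_Bx] at ht2
      unfold GD
      rw [if_pos ⟨h3, h4, h5⟩]
      refine (triv hD h3 h4 h5).trans ?_
      have hn : 1 ≤ (2 * t.1 * t.2 * (t.1 - t.2)).natAbs := by
        rw [Nat.one_le_iff_ne_zero, Int.natAbs_ne_zero]
        exact mul_ne_zero (mul_ne_zero (mul_ne_zero two_ne_zero h3) h4) (sub_ne_zero.2 h5)
      have hnP : (((2 * t.1 * t.2 * (t.1 - t.2)).natAbs : ℕ) : ℝ) ≤ P := by
        have d1 := hab N1 t.1 hN1 ht2.1
        have d2 := hab N2 t.2 hN2 ht2.2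
        have d3 : (((t.1 - t.2).natAbs : ℕ) : ℝ) ≤ 4 * (X : ℝ) ^ (L + 1) := by
          have : (((t.1 - t.2).natAbs : ℕ) : ℝ) ≤ (t.1.natAbs : ℝ) + (t.2.natAbs : ℝ) := by
            have : (t.1 - t.2).natAbs ≤ t.1.natAbs + t.2.natAbs := by omega
            exact_mod_cast this
          linarith
        rw [Int.natAbs_mul, Int.natAbs_mul, Int.natAbs_mul]
        push_cast
        rw [hPX]
        have : ((2 : ℤ).natAbs : ℝ) = 2 := by norm_num
        have e2 : (|(2 : ℝ)|) = 2 := by norm_num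
        simp only [Nat.cast_natAbs, Int.cast_abs] at d1 d2 d3 ⊢
        have f1 : |((t.1 : ℤ) : ℝ)| * |((t.2 : ℤ) : ℝ)| ≤
            (2 * (X : ℝ) ^ (L + 1)) * (2 * (X : ℝ) ^ (L + 1)) :=
          mul_le_mul d1 d2 (abs_nonneg _) (by positivity)
        have f2 : |((t.1 : ℤ) : ℝ)| * |((t.2 : ℤ) : ℝ)| * |((t.1 - t.2 : ℤ) : ℝ)| ≤
            (2 * (X : ℝ) ^ (L + 1)) * (2 * (X : ℝ) ^ (L + 1)) * (4 * (X : ℝ) ^ (L + 1)) :=
          mul_le_mul f1 d3 (abs_nonneg _) (by positivity)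
        push_cast at f2 ⊢
        try rw [e2]
        calc 2 * |((t.1 : ℤ) : ℝ)| * |((t.2 : ℤ) : ℝ)| * |((t.1 : ℤ) : ℝ) - ((t.2 : ℤ) : ℝ)|
            = 2 * (|((t.1 : ℤ) : ℝ)| * |((t.2 : ℤ) : ℝ)| *
              |((t.1 : ℤ) : ℝ) - ((t.2 : ℤ) : ℝ)|) := by ring
          _ ≤ 2 * (2 * (X : ℝ) ^ (L + 1) * (2 * (X : ℝ) ^ (L + 1)) * (4 * (X : ℝ) ^ (L + 1))) := by
              linarith [f2]
          _ = 32 * ((X : ℝ) ^ (L + 1)) ^ 3 := by ring
      have hd := hτ' _ hn hnP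
      have hd4 : (((2 * t.1 * t.2 * (t.1 - t.2)).natAbs.divisors.card : ℕ) : ℝ) ^ 4 ≤ T ^ 4 :=
        pow_le_pow_left₀ (by positivity) hd 4
      exact mul_le_mul_of_nonneg_left hd4 (by positivity)
    have c2 : ((S.filter (fun t => ¬ (Int.gcd t.1 t.2) ^ 2 ≤ X)).card : ℝ) ≤
        X * (T * (Real.sqrt X + 1)) := by
      refine le_trans ?_ (card_big N1 N2 X T hT0 ?_)
      · apply Nat.cast_le.2
        apply card_le_card
        intro t ht
        obtain ⟨ht1, ht0⟩ := mem_filter.1 ht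
        obtain ⟨ht2, h3, h4, h5⟩ := mem_filter.1 ht1
        exact mem_filter.2 ⟨ht2, by omega, h3⟩
      · intro t ht ht0
        rw [mem_Ioc] at ht
        apply hτ' _ (Nat.one_le_iff_ne_zero.2 (Int.natAbs_ne_zero.2 ht0))
        refine (hab N1 t hN1 ht).trans ?_
        rw [hPX]
        have : (X : ℝ) ^ (L + 1) ≤ ((X : ℝ) ^ (L + 1)) ^ 3 := le_self_pow₀ hX1 (by norm_num)
        linarith
    have c3 : Real.sqrt X + 1 ≤ 2 * Real.sqrt X := by
      have : 1 ≤ Real.sqrt X := Real.one_le_sqrt.2 hXr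
      linarith
    have c4 : (16 : ℝ) ^ w ≤ 128 ^ w := pow_le_pow_left₀ (by norm_num) (by norm_num) w
    have c5 : Real.sqrt X * Real.sqrt X = X := Real.mul_self_sqrt (by positivity)
    calc _ ≤ ((S.filter (fun t => ¬ (Int.gcd t.1 t.2) ^ 2 ≤ X)).card : ℝ) *
          (256 * 16 ^ w * T ^ 4) := by
          rw [← nsmul_eq_mul]
          exact sum_le_card_nsmul _ _ _ c1
      _ ≤ (X * (T * (2 * Real.sqrt X))) * (256 * 16 ^ w * T ^ 4) := by
          refine mul_le_mul_of_nonneg_right (c2.trans ?_) (by positivity)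
          gcongr
      _ = 512 * X * Real.sqrt X * 16 ^ w * T ^ 5 := by ring
      _ ≤ 512 * X * Real.sqrt X * 128 ^ w * (32 * K ^ 5 * Real.sqrt X) := by
          gcongr
      _ = 512 * 32 * K ^ 5 * 128 ^ w * X * (Real.sqrt X * Real.sqrt X) := by ring
      _ = _ := by rw [c5]; ring
  rw [e0, e1]
  calc _ ≤ 4 * C1 * C2 * 128 ^ w * (X : ℝ) ^ 2 + 512 * 32 * K ^ 5 * 128 ^ w * (X : ℝ) ^ 2 :=
        add_le_add k1 k4
    _ = _ := by ring

/-- the curve `y² = x (x - A) (x - B)` -/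
def Eab (A B : ℤ) : WeierstrassCurve ℚ := ⟨0, -((A : ℚ) + B), 0, (A : ℚ) * B, 0⟩

theorem rank_le {A B : ℤ} (hA : A ≠ 0) (hB : B ≠ 0) (hAB : A ≠ B) :
    (Sel A B).Finite ∧ 2 ^ Module.finrank ℤ (Eab A B).toAffine.Point ≤ (Sel A B).ncard := by
  have hfin := sel_fin seld hA hB hAB
  refine ⟨hfin, ?_⟩
  have hpoly : ∀ x : ℤ, x ^ 3 + (-27 * (A ^ 2 - A * B + B ^ 2)) * x +
      (27 * (A + B) * (9 * A * B - 2 * (A + B) ^ 2)) =
      (x - (-3 * (A + B))) * (x - (6 * A - 3 * B)) * (x - (6 * B - 3 * A)) := by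
    intro x
    ring
  have hdisc : 4 * (-27 * (A ^ 2 - A * B + B ^ 2)) ^ 3 +
      27 * (27 * (A + B) * (9 * A * B - 2 * (A + B) ^ 2)) ^ 2 ≠ 0 := by
    have e : 4 * (-27 * (A ^ 2 - A * B + B ^ 2)) ^ 3 +
      27 * (27 * (A + B) * (9 * A * B - 2 * (A + B) ^ 2)) ^ 2 =
        -((9 * A) * (9 * B) * (9 * (A - B))) ^ 2 := by ring
    rw [e, neg_ne_zero]
    exact pow_ne_zero 2 (mul_ne_zero (mul_ne_zero (mul_ne_zero (by norm_num) hA)
      (mul_ne_zero (by norm_num) hB)) (mul_ne_zero (by norm_num) (sub_ne_zero.2 hAB)))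
  obtain ⟨f1, f2⟩ := selc _ _ _ _ _ A B 3 hdisc hpoly (by norm_num) (by push_cast; ring)
    (by push_cast; ring) hfin
  have h3 := Pool.Agent.W402.FK.rks _ _ _ _ _ hdisc hpoly f1
  obtain ⟨φ⟩ := Pool.Agent.W261.RT.iso (-((A : ℚ) + B)) ((A : ℚ) * B) 0 (((A : ℚ) + B) / 3) (1 / 3)
    (by norm_num)
  have e : (⟨0, (-((A : ℚ) + B) + 3 * (((A : ℚ) + B) / 3)) / (1 / 3) ^ 2, 0,
      ((A : ℚ) * B + 2 * (((A : ℚ) + B) / 3) * (-((A : ℚ) + B)) +
        3 * (((A : ℚ) + B) / 3) ^ 2) / (1 / 3) ^ 4,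
      (0 + (((A : ℚ) + B) / 3) * ((A : ℚ) * B) + (((A : ℚ) + B) / 3) ^ 2 * (-((A : ℚ) + B)) +
        (((A : ℚ) + B) / 3) ^ 3) / (1 / 3) ^ 6⟩ : WeierstrassCurve ℚ) =
      Pool.Agent.W307.RT.Sh (-27 * (A ^ 2 - A * B + B ^ 2))
        (27 * (A + B) * (9 * A * B - 2 * (A + B) ^ 2)) := by
    unfold Pool.Agent.W307.RT.Sh
    congr 1
    · ring
    · push_cast
      ring
    · push_cast
      ring
  rw [e] at φ
  have h4 : Module.finrank ℤ (Eab A B).toAffine.Point = Module.finrank ℤ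
      (Pool.Agent.W307.RT.Sh (-27 * (A ^ 2 - A * B + B ^ 2))
        (27 * (A + B) * (9 * A * B - 2 * (A + B) ^ 2))).toAffine.Point :=
    (φ.toIntLinearEquiv).finrank_eq
  rw [h4]
  exact h3.trans f2

end Pool.Agent.TH342.SQ
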