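import Pool.Agent.TH342.Chi

set_option autoImplicit false

/-!
# All the quadratic characters at once
-/

namespace Pool.Agent.TH342.SQ

open Finset

/-- the pairs of the square for which `y² = x (x - a) (x - b)` is an elliptic curve -/
noncomputable def Sq (N₁ N₂ : ℤ) (X : ℕ) : Finset (ℤ × ℤ) :=
  (Ioc N₁ (N₁ + X) ×ˢ Ioc N₂ (N₂ + X)).filter (fun t => t.1 ≠ 0 ∧ t.2 ≠ 0 ∧ t.1 ≠ t.2)

lemma sum_Sq (D N₁ N₂ : ℤ) (X : ℕ) :
    ∑ t ∈ Sq N₁ N₂ X, GD D t = ∑ t ∈ Bx N₁ N₂ X, GD D t := by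
  unfold Sq Bx
  apply sum_subset (filter_subset _ _)
  intro t ht ht2
  unfold GD
  rw [if_neg]
  intro h
  exact ht2 (mem_filter.2 ⟨ht, h⟩)

lemma card_Sq (N₁ N₂ : ℤ) (X : ℕ) : X ^ 2 ≤ (Sq N₁ N₂ X).card + 3 * X := by
  classical
  set B := Ioc N₁ (N₁ + (X : ℤ)) ×ˢ Ioc N₂ (N₂ + (X : ℤ)) with hB
  have hc1 : (Ioc N₁ (N₁ + (X : ℤ))).card = X := by
    rw [Int.card_Ioc, add_sub_cancel_left, Int.toNat_natCast]
  have hc2 : (Ioc N₂ (N₂ + (X : ℤ))).card = X := by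
    rw [Int.card_Ioc, add_sub_cancel_left, Int.toNat_natCast]
  have h0 : B.card = X ^ 2 := by
    rw [hB, card_product, hc1, hc2, pow_two]
  have h1 := card_filter_add_card_filter_not (s := B)
    (fun t : ℤ × ℤ => t.1 ≠ 0 ∧ t.2 ≠ 0 ∧ t.1 ≠ t.2)
  have h2 : (B.filter (fun t : ℤ × ℤ => ¬ (t.1 ≠ 0 ∧ t.2 ≠ 0 ∧ t.1 ≠ t.2))) ⊆
      ((Ioc N₂ (N₂ + (X : ℤ))).image (fun b => ((0 : ℤ), b)) ∪
      (Ioc N₁ (N₁ + (X : ℤ))).image (fun a => (a, (0 : ℤ)))) ∪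
      (Ioc N₁ (N₁ + (X : ℤ))).image (fun a => (a, a)) := by
    intro t ht
    obtain ⟨h3, h4⟩ := mem_filter.1 ht
    rw [hB, mem_product] at h3
    rw [mem_union, mem_union, mem_image, mem_image, mem_image]
    by_cases e1 : t.1 = 0
    · left; left
      exact ⟨t.2, h3.2, by rw [← e1]⟩
    · by_cases e2 : t.2 = 0
      · left; right
        exact ⟨t.1, h3.1, by rw [← e2]⟩
      · right
        have e3 : t.1 = t.2 := by
          by_contra h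
          exact h4 ⟨e1, e2, h⟩
        refine ⟨t.1, h3.1, ?_⟩
        nth_rewrite 2 [e3]
        rfl
  have h3 := (card_le_card h2).trans ((card_union_le _ _).trans
    (Nat.add_le_add ((card_union_le _ _).trans (Nat.add_le_add card_image_le card_image_le))
      card_image_le))
  rw [hc1, hc2] at h3
  have h4 : (Sq N₁ N₂ X).card = (B.filter (fun t : ℤ × ℤ => t.1 ≠ 0 ∧ t.2 ≠ 0 ∧ t.1 ≠ t.2)).card :=
    rfl
  omega

lemma sq_le_card (N₁ N₂ : ℤ) (X : ℕ) (h : (Sq N₁ N₂ X).Nonempty) :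
    (X : ℝ) ^ 2 ≤ 36 * (Sq N₁ N₂ X).card := by
  have h1 := card_Sq N₁ N₂ X
  have h2 : 1 ≤ (Sq N₁ N₂ X).card := card_pos.2 h
  have h3 : X ^ 2 ≤ 36 * (Sq N₁ N₂ X).card := by
    by_cases hX : X ≤ 6
    · nlinarith
    · push Not at hX
      have : 6 * X ≤ X ^ 2 := by nlinarith
      omega
  exact_mod_cast h3

/-- the second moment, with the number of the curves on the right hand side -/
theorem moment (L : ℕ) : ∃ C : ℝ, 0 < C ∧ ∀ (D N₁ N₂ : ℤ) (X : ℕ), D ≠ 0 → 1 ≤ X →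
    |N₁| ≤ (X : ℤ) ^ L → |N₂| ≤ (X : ℤ) ^ L →
    ∑ t ∈ Sq N₁ N₂ X, GD D t ≤ C * 128 ^ D.natAbs.primeFactors.card * (Sq N₁ N₂ X).card := by
  obtain ⟨C, hC, h⟩ := all_pairs L
  refine ⟨36 * C + 1, by positivity, fun D N₁ N₂ X hD hX hN₁ hN₂ => ?_⟩
  rcases (Sq N₁ N₂ X).eq_empty_or_nonempty with h0 | h0
  · rw [h0]
    simp
  have hN : ∀ N : ℤ, |N| ≤ (X : ℤ) ^ L → N.natAbs ≤ X ^ L := by
    intro N hN
    have : ((N.natAbs : ℕ) : ℤ) ≤ ((X ^ L : ℕ) : ℤ) := by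
      rw [Int.natCast_natAbs]
      push_cast
      exact hN
    exact_mod_cast this
  have h1 := h D N₁ N₂ X hD hX (hN N₁ hN₁) (hN N₂ hN₂)
  rw [← sum_Sq] at h1
  refine h1.trans ?_
  have h2 := sq_le_card N₁ N₂ X h0
  have h3 : (0 : ℝ) ≤ 128 ^ D.natAbs.primeFactors.card := by positivity
  have h4 : (0 : ℝ) ≤ (Sq N₁ N₂ X).card := Nat.cast_nonneg _
  calc C * 128 ^ D.natAbs.primeFactors.card * (X : ℝ) ^ 2 ≤
        C * 128 ^ D.natAbs.primeFactors.card * (36 * (Sq N₁ N₂ X).card) :=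
          mul_le_mul_of_nonneg_left h2 (by positivity)
    _ = (36 * C) * 128 ^ D.natAbs.primeFactors.card * (Sq N₁ N₂ X).card := by ring
    _ ≤ _ := by
        gcongr
        linarith

/-- the sum over all the moduli of the weights `128 ^ ω(n) / n ^ (1 + ε)` -/
theorem weights (ε : ℝ) (hε : 0 < ε) : ∃ K : ℝ, 0 < K ∧ ∀ Y : ℕ,
    ∑ n ∈ Icc 1 Y, (128 : ℝ) ^ n.primeFactors.card / (n : ℝ) ^ (1 + ε) ≤ K := by
  obtain ⟨K, hK, hτ⟩ := Pool.Agent.Helper112.divisor_bound (ε / 14) (by positivity)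
  have hs : Summable (fun n : ℕ => 1 / (n : ℝ) ^ (1 + ε / 2)) :=
    Real.summable_one_div_nat_rpow.2 (by linarith)
  set S : ℝ := ∑' n : ℕ, 1 / (n : ℝ) ^ (1 + ε / 2) with hS
  have hS0 : 0 ≤ S := tsum_nonneg fun n => by positivity
  refine ⟨K ^ 7 * S + 1, by positivity, fun Y => ?_⟩
  have h1 : ∀ n ∈ Icc 1 Y, (128 : ℝ) ^ n.primeFactors.card / (n : ℝ) ^ (1 + ε) ≤
      K ^ 7 * (1 / (n : ℝ) ^ (1 + ε / 2)) := by
    intro n hn
    have hn1 : 1 ≤ n := (mem_Icc.1 hn).1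
    have hn0 : (0 : ℝ) < n := by exact_mod_cast hn1
    have h2 : (2 : ℝ) ^ n.primeFactors.card ≤ (n.divisors.card : ℝ) := by
      exact_mod_cast two_pow_le n (by omega)
    have h3 : (128 : ℝ) ^ n.primeFactors.card ≤ K ^ 7 * (n : ℝ) ^ (ε / 2) := by
      calc (128 : ℝ) ^ n.primeFactors.card = (2 ^ n.primeFactors.card) ^ 7 := by
            rw [← pow_mul, mul_comm, pow_mul]; norm_num
        _ ≤ (K * (n : ℝ) ^ (ε / 14)) ^ 7 :=
            pow_le_pow_left₀ (by positivity) (h2.trans (hτ n hn1)) 7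
        _ = K ^ 7 * (n : ℝ) ^ (ε / 2) := by
            rw [mul_pow, ← Real.rpow_natCast ((n : ℝ) ^ (ε / 14)) 7, ← Real.rpow_mul hn0.le]
            congr 2
            push_cast
            ring
    rw [div_le_iff₀ (by positivity)]
    refine h3.trans (le_of_eq ?_)
    have h4 : (n : ℝ) ^ (1 + ε) = (n : ℝ) ^ (1 + ε / 2) * (n : ℝ) ^ (ε / 2) := by
      rw [← Real.rpow_add hn0]
      congr 1
      ring
    rw [h4]
    field_simp
  refine (sum_le_sum h1).trans ?_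
  rw [← mul_sum]
  have h5 : ∑ n ∈ Icc 1 Y, 1 / (n : ℝ) ^ (1 + ε / 2) ≤ S :=
    hs.sum_le_tsum _ (fun n _ => by positivity)
  have h6 : K ^ 7 * ∑ n ∈ Icc 1 Y, 1 / (n : ℝ) ^ (1 + ε / 2) ≤ K ^ 7 * S :=
    mul_le_mul_of_nonneg_left h5 (by positivity)
  linarith

/-- the weighted term -/
noncomputable def fD (ε : ℝ) (t : ℤ × ℤ) (D : {D : ℤ // D ≠ 0}) : ℝ :=
  GD D.1 t / (D.1.natAbs : ℝ) ^ (1 + ε)

lemma fD_nonneg (ε : ℝ) (t : ℤ × ℤ) (D : {D : ℤ // D ≠ 0}) : 0 ≤ fD ε t D := by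
  unfold fD
  have := GD_nonneg D.1 t
  positivity

/-- the supremum over all the twists -/
noncomputable def MM (ε : ℝ) (t : ℤ × ℤ) : ℝ := ⨆ D : {D : ℤ // D ≠ 0}, fD ε t D

/-- `128 ^ ω(n) ≤ K n ^ δ` -/
lemma pow_om (δ : ℝ) (hδ : 0 < δ) : ∃ K : ℝ, 0 < K ∧ ∀ n : ℕ, 1 ≤ n →
    (128 : ℝ) ^ n.primeFactors.card ≤ K * (n : ℝ) ^ δ := by
  obtain ⟨K, hK, hτ⟩ := Pool.Agent.Helper112.divisor_bound (δ / 7) (by positivity)
  refine ⟨K ^ 7, by positivity, fun n hn => ?_⟩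
  have hn0 : (0 : ℝ) < n := by exact_mod_cast hn
  have h2 : (2 : ℝ) ^ n.primeFactors.card ≤ (n.divisors.card : ℝ) := by
    exact_mod_cast two_pow_le n (by omega)
  calc (128 : ℝ) ^ n.primeFactors.card = (2 ^ n.primeFactors.card) ^ 7 := by
        rw [← pow_mul, mul_comm, pow_mul]; norm_num
    _ ≤ (K * (n : ℝ) ^ (δ / 7)) ^ 7 :=
        pow_le_pow_left₀ (by positivity) (h2.trans (hτ n hn)) 7
    _ = K ^ 7 * (n : ℝ) ^ δ := by
        rw [mul_pow, ← Real.rpow_natCast ((n : ℝ) ^ (δ / 7)) 7, ← Real.rpow_mul hn0.le]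
        congr 2
        push_cast
        ring

lemma bdd (ε : ℝ) (hε : 0 < ε) (t : ℤ × ℤ) : BddAbove (Set.range (fD ε t)) := by
  by_cases ht : t.1 ≠ 0 ∧ t.2 ≠ 0 ∧ t.1 ≠ t.2
  · obtain ⟨K, hK, h⟩ := pow_om (1 + ε) (by positivity)
    refine ⟨256 * K * ((2 * t.1 * t.2 * (t.1 - t.2)).natAbs.divisors.card : ℝ) ^ 4, ?_⟩
    rintro _ ⟨D, rfl⟩
    unfold fD
    have h0 : (0 : ℝ) < (D.1.natAbs : ℝ) := by exact_mod_cast Int.natAbs_pos.2 D.2
    rw [div_le_iff₀ (Real.rpow_pos_of_pos h0 _)]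
    have h1 : GD D.1 t = ((Pool.Agent.W307.SE.Sel (D.1 * t.1) (D.1 * t.2)).ncard : ℝ) ^ 2 := by
      unfold GD
      rw [if_pos ht]
    rw [h1]
    refine (triv D.2 ht.1 ht.2.1 ht.2.2).trans ?_
    have h2 : (16 : ℝ) ^ D.1.natAbs.primeFactors.card ≤ K * (D.1.natAbs : ℝ) ^ (1 + ε) :=
      (pow_le_pow_left₀ (by norm_num) (by norm_num) _).trans (h _ (Int.natAbs_pos.2 D.2))
    calc 256 * (16 : ℝ) ^ D.1.natAbs.primeFactors.card *
          ((2 * t.1 * t.2 * (t.1 - t.2)).natAbs.divisors.card : ℝ) ^ 4 ≤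
          256 * (K * (D.1.natAbs : ℝ) ^ (1 + ε)) *
          ((2 * t.1 * t.2 * (t.1 - t.2)).natAbs.divisors.card : ℝ) ^ 4 := by gcongr
      _ = _ := by ring
  · refine ⟨0, ?_⟩
    rintro _ ⟨D, rfl⟩
    unfold fD GD
    rw [if_neg ht, zero_div]

lemma GD_le_MM (ε : ℝ) (hε : 0 < ε) (t : ℤ × ℤ) {D : ℤ} (hD : D ≠ 0) :
    GD D t ≤ MM ε t * (D.natAbs : ℝ) ^ (1 + ε) := by
  have h0 : (0 : ℝ) < (D.natAbs : ℝ) := by exact_mod_cast Int.natAbs_pos.2 hD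
  rw [← div_le_iff₀ (Real.rpow_pos_of_pos h0 _)]
  exact le_ciSup (bdd ε hε t) ⟨D, hD⟩

/-- all the twists at once -/
theorem all_twists (ε : ℝ) (hε : 0 < ε) (L : ℕ) : ∃ K : ℝ, 0 < K ∧ ∀ (N₁ N₂ : ℤ) (X : ℕ),
    1 ≤ X → |N₁| ≤ (X : ℤ) ^ L → |N₂| ≤ (X : ℤ) ^ L →
    ∑ t ∈ Sq N₁ N₂ X, MM ε t ≤ K * (Sq N₁ N₂ X).card := by
  classical
  obtain ⟨C, hC, hm⟩ := moment L
  obtain ⟨W, hW, hw⟩ := weights ε hε
  refine ⟨2 * C * W, by positivity, fun N₁ N₂ X hX hN₁ hN₂ => ?_⟩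
  set S := Sq N₁ N₂ X with hS
  set K : ℝ := 2 * C * W with hK
  have hK0 : 0 < K := by positivity
  have : Nonempty {D : ℤ // D ≠ 0} := ⟨⟨1, one_ne_zero⟩⟩
  apply le_of_forall_pos_le_add
  intro δ hδ
  set δ' : ℝ := δ / (S.card + 1) with hδ'
  have hc0 : (0 : ℝ) ≤ S.card := Nat.cast_nonneg _
  have hδ'0 : 0 < δ' := by positivity
  have hex : ∀ t : ℤ × ℤ, ∃ D : {D : ℤ // D ≠ 0}, MM ε t - δ' < fD ε t D := by
    intro t
    exact exists_lt_of_lt_ciSup (by unfold MM; linarith)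
  choose d hd using hex
  set Y := S.sup (fun t => (d t).1.natAbs) with hY
  set J := (Icc (-(Y : ℤ)) Y).filter (fun D => D ≠ 0) with hJ
  have h1 : ∀ t ∈ S, MM ε t ≤ ∑ D ∈ J, (GD D t / (D.natAbs : ℝ) ^ (1 + ε)) + δ' := by
    intro t ht
    have h2 : (d t).1.natAbs ≤ Y := le_sup (f := fun t => (d t).1.natAbs) ht
    have h3 : (d t).1 ∈ J := by
      rw [hJ, mem_filter, mem_Icc]
      exact ⟨by omega, (d t).2⟩
    have h4 := hd t
    have h5 : fD ε t (d t) ≤ ∑ D ∈ J, (GD D t / (D.natAbs : ℝ) ^ (1 + ε)) :=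
      single_le_sum (f := fun D : ℤ => (GD D t / (D.natAbs : ℝ) ^ (1 + ε)))
        (fun D _ => by have := GD_nonneg D t; positivity) h3
    linarith
  have h4 : ∑ t ∈ S, ∑ D ∈ J, (GD D t / (D.natAbs : ℝ) ^ (1 + ε)) ≤
      ∑ D ∈ J, (C * S.card) *
        ((128 : ℝ) ^ D.natAbs.primeFactors.card / (D.natAbs : ℝ) ^ (1 + ε)) := by
    rw [sum_comm]
    refine sum_le_sum fun D hD => ?_
    have hD0 : D ≠ 0 := (mem_filter.1 hD).2
    rw [← sum_div]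
    have h5 := hm D N₁ N₂ X hD0 hX hN₁ hN₂
    calc (∑ t ∈ S, GD D t) / (D.natAbs : ℝ) ^ (1 + ε) ≤
          (C * 128 ^ D.natAbs.primeFactors.card * S.card) / (D.natAbs : ℝ) ^ (1 + ε) := by
          gcongr
      _ = _ := by ring
  have h5 : ∑ D ∈ J, ((128 : ℝ) ^ D.natAbs.primeFactors.card / (D.natAbs : ℝ) ^ (1 + ε)) ≤
      2 * W := by
    have e1 : J ⊆ (Icc 1 Y).image (fun n : ℕ => (n : ℤ)) ∪
        (Icc 1 Y).image (fun n : ℕ => -(n : ℤ)) := by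
      intro D hD
      rw [hJ, mem_filter, mem_Icc] at hD
      rw [mem_union, mem_image, mem_image]
      rcases lt_or_gt_of_ne hD.2 with h | h
      · right
        exact ⟨D.natAbs, mem_Icc.2 ⟨by omega, by omega⟩, by omega⟩
      · left
        exact ⟨D.natAbs, mem_Icc.2 ⟨by omega, by omega⟩, by omega⟩
    refine (sum_le_sum_of_subset_of_nonneg e1 fun _ _ _ => by positivity).trans ?_
    have e0 := sum_union_inter (s₁ := (Icc 1 Y).image (fun n : ℕ => (n : ℤ)))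
      (s₂ := (Icc 1 Y).image (fun n : ℕ => -(n : ℤ)))
      (f := fun D : ℤ => ((128 : ℝ) ^ D.natAbs.primeFactors.card / (D.natAbs : ℝ) ^ (1 + ε)))
    have e4 : 0 ≤ ∑ D ∈ (Icc 1 Y).image (fun n : ℕ => (n : ℤ)) ∩
        (Icc 1 Y).image (fun n : ℕ => -(n : ℤ)),
        ((128 : ℝ) ^ D.natAbs.primeFactors.card / (D.natAbs : ℝ) ^ (1 + ε)) :=
      sum_nonneg fun _ _ => by positivity
    have e2 : ∑ D ∈ (Icc 1 Y).image (fun n : ℕ => (n : ℤ)),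
        ((128 : ℝ) ^ D.natAbs.primeFactors.card / (D.natAbs : ℝ) ^ (1 + ε)) ≤ W := by
      rw [sum_image (fun a _ b _ h => by simpa using h)]
      simp only [Int.natAbs_natCast]
      exact hw Y
    have e3 : ∑ D ∈ (Icc 1 Y).image (fun n : ℕ => -(n : ℤ)),
        ((128 : ℝ) ^ D.natAbs.primeFactors.card / (D.natAbs : ℝ) ^ (1 + ε)) ≤ W := by
      rw [sum_image (fun a _ b _ h => by simpa using h)]
      simp only [Int.natAbs_neg, Int.natAbs_natCast]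
      exact hw Y
    linarith
  calc ∑ t ∈ S, MM ε t ≤ ∑ t ∈ S, (∑ D ∈ J, (GD D t / (D.natAbs : ℝ) ^ (1 + ε)) + δ') :=
        sum_le_sum h1
    _ = ∑ t ∈ S, ∑ D ∈ J, (GD D t / (D.natAbs : ℝ) ^ (1 + ε)) + S.card * δ' := by
        rw [sum_add_distrib, sum_const, nsmul_eq_mul]
    _ ≤ (C * S.card) * (2 * W) + δ := by
        refine add_le_add (h4.trans ?_) ?_
        · rw [← mul_sum]
          exact mul_le_mul_of_nonneg_left h5 (by positivity)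
        · rw [hδ', mul_div_assoc', div_le_iff₀ (by positivity)]
          nlinarith
    _ = K * S.card + δ := by rw [hK]; ring

end Pool.Agent.TH342.SQ
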