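import Pool.Agent.TH342.ShortSq
import Pool.Agent.TH841.SH.Wt

/-!
# The Tate-Shafarevich groups
-/

set_option autoImplicit false

namespace Pool.Agent.TH342.SQ

open Pool.Agent.W307.SE Pool.Agent.W410.FK

theorem bd_sel {A B : ℤ} (hA : A ≠ 0) (hB : B ≠ 0) (hAB : A ≠ B) :
    Pool.Agent.TH841.SH.Bd (Pool.Agent.W307.RT.Sh (-27 * (A ^ 2 - A * B + B ^ 2))
      (27 * (A + B) * (9 * A * B - 2 * (A + B) ^ 2))) ((Sel A B).ncard : ℝ) := by
  have hfin := sel_fin seld hA hB hAB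
  have hpoly : ∀ x : ℤ, x ^ 3 + (-27 * (A ^ 2 - A * B + B ^ 2)) * x +
      (27 * (A + B) * (9 * A * B - 2 * (A + B) ^ 2)) =
      (x - (-3 * (A + B))) * (x - (6 * A - 3 * B)) * (x - (6 * B - 3 * A)) := by
    intro x
    ring
  have hdisc : 4 * (-27 * (A ^ 2 - A * B + B ^ 2)) ^ 3 +
      27 * (27 * (A + B) * (9 * A * B - 2 * (A + B) ^ 2)) ^ 2 ≠ 0 := by
    have e : 4 * (-27 * (A ^ 2 - A * B + B ^ 2)) ^ 3 +
      27 * (27 * (A + B) * (9 * A * B - 2 * (A + B) ^ 2)) ^ 2 =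
        -((9 * A) * (9 * B) * (9 * (A - B))) ^ 2 := by ring
    rw [e, neg_ne_zero]
    exact pow_ne_zero 2 (mul_ne_zero (mul_ne_zero (mul_ne_zero (by norm_num) hA)
      (mul_ne_zero (by norm_num) hB)) (mul_ne_zero (by norm_num) (sub_ne_zero.2 hAB)))
  obtain ⟨f1, f2⟩ := selc _ _ _ _ _ A B 3 hdisc hpoly (by norm_num) (by push_cast; ring)
    (by push_cast; ring) hfin
  obtain ⟨g1, g2⟩ := Pool.Agent.TH841.SH.bd_selR hdisc hpoly f1
  exact ⟨g1, g2.trans (by exact_mod_cast f2)⟩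

end Pool.Agent.TH342.SQ
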