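import Pool.Agent.TH342.ShortSq
import Pool.Agent.TH841.NF.Tm
import Pool.Agent.W307.RG.MqTw
import Pool.Agent.W683.AT.Chi

set_option autoImplicit false

/-!
# The multiplicity of a quadratic character in the Mordell-Weil groups of `y² = x (x - a) (x - b)`
-/

namespace Pool.Agent.TH342.SQ

open Finset WeierstrassCurve

open Pool.Agent.TH841.NF (Sc tF tF_add tF_some tF_zero ns_iff)

open scoped Classical in
/-- the points `P` of `W` over `L` with `σ P = χ(σ) P` for all `σ` in `Gal(L/ℚ)` -/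
noncomputable def Eig (L : Type) [Field L] [NumberField L] (χ : (L ≃ₐ[ℚ] L) →* ℤˣ)
    (W : WeierstrassCurve ℚ) : AddSubgroup (W.baseChange L).toAffine.Point where
  carrier := {P | ∀ σ : L ≃ₐ[ℚ] L,
    Affine.Point.map (W' := W.toAffine) (σ : L →ₐ[ℚ] L) P = ((χ σ : ℤˣ) : ℤ) • P}
  add_mem' := by
    intro P Q hP hQ σ
    rw [map_add, hP σ, hQ σ, smul_add]
  zero_mem' := by
    intro σ
    rw [map_zero, smul_zero]
  neg_mem' := by
    intro P hP σ
    rw [map_neg, hP σ, smul_neg]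

open scoped Classical in
/-- the multiplicity of `χ` in `W(L) ⊗ ℂ`: the rank of the group of the points `P` of `W` over `L`
with `σ P = χ(σ) P` for all `σ` in `Gal(L/ℚ)` -/
noncomputable def mult (L : Type) [Field L] [NumberField L] (χ : (L ≃ₐ[ℚ] L) →* ℤˣ)
    (W : WeierstrassCurve ℚ) : ℕ := Module.finrank ℤ (Eig L χ W)

lemma sc_of {a b d : ℤ} {L : Type} [Field L] [NumberField L] {r : L} (hd : d ≠ 0)
    (hr : r ^ 2 = (d : L)) :
    Sc (algebraMap ℚ L) r⁻¹ (Eab (d * a) (d * b)) ((Eab a b).baseChange L) := by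
  have hd' : (d : L) ≠ 0 := by exact_mod_cast hd
  have hr0 : r ≠ 0 := by
    intro h
    rw [h] at hr
    apply hd'
    rw [← hr]
    ring
  refine ⟨inv_ne_zero hr0, ?_, ?_, ?_, ?_, ?_⟩
  · change algebraMap ℚ L 0 = algebraMap ℚ L 0 * _
    simp
  · change algebraMap ℚ L (-((a : ℚ) + b)) = algebraMap ℚ L (-(((d * a : ℤ) : ℚ) + (d * b : ℤ))) * _
    simp only [map_neg, map_add, map_intCast]
    push_cast
    rw [← hr]
    field_simp
  · change algebraMap ℚ L 0 = algebraMap ℚ L 0 * _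
    simp
  · change algebraMap ℚ L ((a : ℚ) * b) = algebraMap ℚ L (((d * a : ℤ) : ℚ) * (d * b : ℤ)) * _
    simp only [map_mul, map_intCast]
    push_cast
    rw [← hr]
    field_simp
  · change algebraMap ℚ L 0 = algebraMap ℚ L 0 * _
    simp

lemma exists_rat {L : Type} [Field L] [NumberField L] [IsGalois ℚ L] {x : L}
    (h : ∀ σ : L ≃ₐ[ℚ] L, σ x = x) : ∃ y : ℚ, algebraMap ℚ L y = x := by
  have h1 : x ∈ IntermediateField.fixedField (⊤ : Subgroup (L ≃ₐ[ℚ] L)) := by
    rw [IntermediateField.mem_fixedField_iff]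
    exact fun σ _ => h σ
  rw [InfiniteGalois.fixedField_bot] at h1
  exact IntermediateField.mem_bot.1 h1

open scoped Classical in
/-- **The multiplicity is at most the rank of the twist.** -/
theorem mult_le {a b d : ℤ} {L : Type} [Field L] [NumberField L] [IsGalois ℚ L] {r : L}
    (hd : d ≠ 0) (hr : r ^ 2 = (d : L)) (χ : (L ≃ₐ[ℚ] L) →* ℤˣ)
    (hχ : ∀ σ : L ≃ₐ[ℚ] L, σ r = (((χ σ : ℤˣ) : ℤ) : L) * r)
    (hfin : Module.Finite ℤ (Eab (d * a) (d * b)).toAffine.Point) :
    mult L χ (Eab a b) ≤ Module.finrank ℤ (Eab (d * a) (d * b)).toAffine.Point := by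
  have hd' : (d : L) ≠ 0 := by exact_mod_cast hd
  have hr0 : r ≠ 0 := by
    intro h
    rw [h] at hr
    apply hd'
    rw [← hr]
    ring
  have S := sc_of (a := a) (b := b) hd hr
  let φ : (Eab (d * a) (d * b)).toAffine.Point →+ ((Eab a b).baseChange L).toAffine.Point :=
    { toFun := tF S, map_zero' := tF_zero S, map_add' := tF_add S }
  have hinj : Function.Injective φ := by
    rw [injective_iff_map_eq_zero]
    intro P hP
    match P with
    | 0 => rfl
    | .some x y h =>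
      change tF S (.some x y h) = 0 at hP
      rw [tF_some] at hP
      cases hP
  have hle : ∀ P : Eig L χ (Eab a b), ∃ Q, φ Q = P.1 := by
    rintro ⟨P, hP⟩
    match P, hP with
    | 0, _ => exact ⟨0, map_zero φ⟩
    | .some x y h, hP =>
      have hP' : ∀ σ : L ≃ₐ[ℚ] L, Affine.Point.map (W' := (Eab a b).toAffine) (σ : L →ₐ[ℚ] L)
          (Affine.Point.some x y h) = ((χ σ : ℤˣ) : ℤ) • Affine.Point.some x y h := hP
      have hneg : ((Eab a b).baseChange L).toAffine.negY x y = -y := by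
        change -y - algebraMap ℚ L 0 * x - algebraMap ℚ L 0 = -y
        simp
      have h1 : ∀ σ : L ≃ₐ[ℚ] L, σ x = x ∧ σ y = (((χ σ : ℤˣ) : ℤ) : L) * y := by
        intro σ
        have h2 := hP' σ
        rw [Affine.Point.map_some] at h2
        rcases Int.units_eq_one_or (χ σ) with hc | hc
        · rw [hc] at h2 ⊢
          rw [Units.val_one, one_smul, Affine.Point.some.injEq] at h2
          refine ⟨h2.1, ?_⟩
          rw [Units.val_one, Int.cast_one, one_mul]
          exact h2.2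
        · rw [hc] at h2 ⊢
          rw [Units.val_neg, Units.val_one, neg_smul, one_smul, Affine.Point.neg_some,
            Affine.Point.some.injEq] at h2
          refine ⟨h2.1, ?_⟩
          rw [Units.val_neg, Units.val_one, Int.cast_neg, Int.cast_one, neg_mul, one_mul, ← hneg]
          exact h2.2
      obtain ⟨x0, hx0⟩ := exists_rat (x := x * r ^ 2) (by
        intro σ
        rw [map_mul, (h1 σ).1, hr, map_intCast])
      obtain ⟨y0, hy0⟩ := exists_rat (x := y * r ^ 3) (by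
        intro σ
        rw [map_mul, map_pow, (h1 σ).2, hχ σ]
        have h2 : (((χ σ : ℤˣ) : ℤ) : L) ^ 4 = 1 := by
          rcases Int.units_eq_one_or (χ σ) with hc | hc <;> rw [hc] <;> norm_num
        calc (((χ σ : ℤˣ) : ℤ) : L) * y * ((((χ σ : ℤˣ) : ℤ) : L) * r) ^ 3 =
            (((χ σ : ℤˣ) : ℤ) : L) ^ 4 * (y * r ^ 3) := by ring
          _ = _ := by rw [h2, one_mul])
      have ex : algebraMap ℚ L x0 * r⁻¹ ^ 2 = x := by
        rw [hx0]
        field_simp
      have ey : algebraMap ℚ L y0 * r⁻¹ ^ 3 = y := by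
        rw [hy0]
        field_simp
      have hns : (Eab (d * a) (d * b)).toAffine.Nonsingular x0 y0 := by
        rw [← ns_iff S, ex, ey]
        exact h
      refine ⟨.some x0 y0 hns, ?_⟩
      change tF S (.some x0 y0 hns) = _
      rw [tF_some, Affine.Point.some.injEq]
      exact ⟨ex, ey⟩
  choose g hg using hle
  have hgadd : ∀ P Q, g (P + Q) = g P + g Q := by
    intro P Q
    apply hinj
    rw [map_add, hg, hg, hg]
    rfl
  let ψ : Eig L χ (Eab a b) →+ (Eab (d * a) (d * b)).toAffine.Point :=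
    AddMonoidHom.mk' g hgadd
  have hψ : Function.Injective ψ := by
    intro P Q h
    have h' : g P = g Q := h
    apply Subtype.ext
    rw [← hg P, ← hg Q, h']
  exact LinearMap.finrank_le_finrank_of_injective (f := ψ.toIntLinearMap) hψ

/-- the group of the rational points is finitely generated -/
theorem fin_ab {A B : ℤ} (hA : A ≠ 0) (hB : B ≠ 0) (hAB : A ≠ B) :
    Module.Finite ℤ (Eab A B).toAffine.Point := by
  have hpoly : ∀ x : ℤ, x ^ 3 + (-27 * (A ^ 2 - A * B + B ^ 2)) * x +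
      (27 * (A + B) * (9 * A * B - 2 * (A + B) ^ 2)) =
      (x - (-3 * (A + B))) * (x - (6 * A - 3 * B)) * (x - (6 * B - 3 * A)) := by
    intro x
    ring
  have hdisc : 4 * (-27 * (A ^ 2 - A * B + B ^ 2)) ^ 3 +
      27 * (27 * (A + B) * (9 * A * B - 2 * (A + B) ^ 2)) ^ 2 ≠ 0 := by
    have e : 4 * (-27 * (A ^ 2 - A * B + B ^ 2)) ^ 3 +
      27 * (27 * (A + B) * (9 * A * B - 2 * (A + B) ^ 2)) ^ 2 =
        -((9 * A) * (9 * B) * (9 * (A - B))) ^ 2 := by ring
    rw [e, neg_ne_zero]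
    exact pow_ne_zero 2 (mul_ne_zero (mul_ne_zero (mul_ne_zero (by norm_num) hA)
      (mul_ne_zero (by norm_num) hB)) (mul_ne_zero (by norm_num) (sub_ne_zero.2 hAB)))
  have h1 := Pool.Agent.W307.RG.fin_tw hdisc hpoly (d := 1) one_ne_zero
  rw [one_pow, one_pow, one_mul, one_mul] at h1
  obtain ⟨φ⟩ := Pool.Agent.W261.RT.iso (-((A : ℚ) + B)) ((A : ℚ) * B) 0 (((A : ℚ) + B) / 3) (1 / 3)
    (by norm_num)
  have e : (⟨0, (-((A : ℚ) + B) + 3 * (((A : ℚ) + B) / 3)) / (1 / 3) ^ 2, 0,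
      ((A : ℚ) * B + 2 * (((A : ℚ) + B) / 3) * (-((A : ℚ) + B)) +
        3 * (((A : ℚ) + B) / 3) ^ 2) / (1 / 3) ^ 4,
      (0 + (((A : ℚ) + B) / 3) * ((A : ℚ) * B) + (((A : ℚ) + B) / 3) ^ 2 * (-((A : ℚ) + B)) +
        (((A : ℚ) + B) / 3) ^ 3) / (1 / 3) ^ 6⟩ : WeierstrassCurve ℚ) =
      Pool.Agent.W307.RT.Sh (-27 * (A ^ 2 - A * B + B ^ 2))
        (27 * (A + B) * (9 * A * B - 2 * (A + B) ^ 2)) := by
    unfold Pool.Agent.W307.RT.Sh
    congr 1
    · ring
    · push_cast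
      ring
    · push_cast
      ring
  rw [e] at φ
  exact Module.Finite.equiv (φ.toIntLinearEquiv).symm

/-- `4 ^ m_χ` is at most the square of the order of the 2-Selmer group of the twist -/
theorem mult_sel {a b d : ℤ} {L : Type} [Field L] [NumberField L] [IsGalois ℚ L] {r : L}
    (hd : d ≠ 0) (hr : r ^ 2 = (d : L)) (χ : (L ≃ₐ[ℚ] L) →* ℤˣ)
    (hχ : ∀ σ : L ≃ₐ[ℚ] L, σ r = (((χ σ : ℤˣ) : ℤ) : L) * r) (ha : a ≠ 0) (hb : b ≠ 0)
    (hab : a ≠ b) :
    (4 : ℝ) ^ mult L χ (Eab a b) ≤ GD d (a, b) := by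
  have h0 : d * a ≠ d * b := fun h => hab (mul_left_cancel₀ hd h)
  have h1 := mult_le hd hr χ hχ (fin_ab (mul_ne_zero hd ha) (mul_ne_zero hd hb) h0)
  have h2 := (rank_le (mul_ne_zero hd ha) (mul_ne_zero hd hb) h0).2
  unfold GD
  rw [if_pos ⟨ha, hb, hab⟩]
  have h3 : ((2 : ℝ) ^ mult L χ (Eab a b)) ≤
      ((Pool.Agent.W307.SE.Sel (d * a) (d * b)).ncard : ℝ) := by
    exact_mod_cast (Nat.pow_le_pow_right (by norm_num) h1).trans h2
  calc (4 : ℝ) ^ mult L χ (Eab a b) = (2 ^ mult L χ (Eab a b)) ^ 2 := by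
        rw [← pow_mul, mul_comm, pow_mul]; norm_num
    _ ≤ _ := pow_le_pow_left₀ (by positivity) h3 2

end Pool.Agent.TH342.SQ
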